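import Pool.Agent.helper53.DC.SpecA

set_option autoImplicit false

namespace Pool.Agent.helper19.DC

open Pool.Agent.helper53.DC

theorem A13 (hA3 : A3_stmt) (hA14 : A14_stmt) (hA15 : A15_stmt) : A13_stmt := by
  intro B W _ M cs r v b hcr
  have : Nonempty (Wall cs) := ⟨r⟩
  have hadj : ∀ (x : W) (i : B), r = wall cs x i → x ∈ Car cs r ∧ r.1 * x = x * cs.simple i := by
    intro x i h
    have e : r.1 * x = x * cs.simple i := by
      rw [h, wall_val]
      group
    exact ⟨⟨i, e⟩, e⟩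
  -- a chamber of the carrier on the side `b` of `r` and the side `b'` of `v`
  have key : ∀ b' : Bool, ∃ x ∈ Car cs r, x ∈ (cw cs).hs r b ∧ x ∈ (cw cs).hs v b' := by
    intro b'
    obtain ⟨y, hyv, hyr⟩ := hcr b' b
    obtain ⟨z, hzv, hzr⟩ := hcr b' (!b)
    obtain ⟨X, w, hG, hX0, hXn⟩ := hA14 cs y z
    obtain ⟨_, hsep, _, hall, _⟩ := hA15 cs _ X w hG
    have hry : (cw cs).Sep r (X 0) (X (dd cs y z)) := by
      rw [hX0, hXn]
      intro h
      simp only [WS.hs, Set.mem_setOf_eq] at hyr hzr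
      cases b <;> simp_all
    obtain ⟨k, hk, hrk⟩ := hall r hry
    have hvn : ¬ (cw cs).Sep v (X 0) (X (dd cs y z)) := by
      rw [hX0, hXn]
      intro h
      apply h
      simp only [WS.hs, Set.mem_setOf_eq] at hyv hzv
      rw [hyv, hzv]
    have hvk : ¬ (cw cs).Sep v (X 0) (X k) := by
      intro h
      have h1 : (cw cs).Sep v (X 0) (X k) → ∃ l < k, v = w l := by
        intro h2
        have hG' := (hA15 cs _ X w hG).2.2.2.2 0 k (Nat.zero_le _) hk.le
        have h3 := (hA15 cs _ _ _ hG').2.2.2.1 v (by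
          simpa using h2)
        obtain ⟨l, hl, hvl⟩ := h3
        exact ⟨l, by omega, by simpa using hvl⟩
      obtain ⟨l, hl, hvl⟩ := h1 h
      apply hvn
      rw [hvl]
      exact (hsep l 0 _ (by omega) (Nat.zero_le _) le_rfl).mpr ⟨Nat.zero_le _, by omega⟩
    have hrk0 : ¬ (cw cs).Sep r (X 0) (X k) := by
      rw [hrk]
      intro h
      have := (hsep k 0 k hk (Nat.zero_le _) hk.le).mp h
      omega
    obtain ⟨i, hi⟩ := hG.adj k hk
    have hwall : r = wall cs (X k) i := by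
      rw [← hA3 cs r (X k) i, ← hi, hrk]
      exact (hsep k k (k + 1) hk (Nat.le_succ _) hk).mpr ⟨le_rfl, Nat.lt_succ_self _⟩
    refine ⟨X k, (hadj _ _ hwall).1, ?_, ?_⟩
    · have h1 : (X 0 ∈ (cw cs).H r ↔ X k ∈ (cw cs).H r) := not_not.mp hrk0
      rw [hX0] at h1
      simp only [WS.hs, Set.mem_setOf_eq] at hyr ⊢
      rw [← h1, hyr]
    · have h1 : (X 0 ∈ (cw cs).H v ↔ X k ∈ (cw cs).H v) := not_not.mp hvk
      rw [hX0] at h1
      simp only [WS.hs, Set.mem_setOf_eq] at hyv ⊢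
      rw [← h1, hyv]
  obtain ⟨x, hx, hxr, hxv⟩ := key true
  obtain ⟨x', hx', hxr', hxv'⟩ := key false
  refine ⟨x, hx, x', hx', hxr, hxr', ?_⟩
  intro h
  simp only [WS.hs, Set.mem_setOf_eq] at hxv hxv'
  simp_all

end Pool.Agent.helper19.DC
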