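import Pool.Agent.helper53.DC.SpecA

set_option autoImplicit false

namespace Pool.Agent.helper19.DC

open Pool.Agent.helper53.DC

theorem A16 (hA5 : A5_stmt) : A16_stmt := by
  intro B W _ M cs x y z
  obtain ⟨hAf, hAc⟩ := hA5 cs x z
  obtain ⟨hBf, hBc⟩ := hA5 cs z y
  obtain ⟨hCf, hCc⟩ := hA5 cs x y
  have hC : {r | (cw cs).Sep r x y} =
      ({r | (cw cs).Sep r x z} ∪ {r | (cw cs).Sep r z y}) \
        ({r | (cw cs).Sep r x z} ∩ {r | (cw cs).Sep r z y}) := by
    ext r
    simp only [WS.Sep, Set.mem_setOf_eq, Set.mem_diff, Set.mem_union, Set.mem_inter_iff]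
    tauto
  have h1 := Set.ncard_union_add_ncard_inter {r | (cw cs).Sep r x z} {r | (cw cs).Sep r z y}
    hAf hBf
  have h2 := Set.ncard_diff_add_ncard_of_subset
    (s := {r | (cw cs).Sep r x z} ∩ {r | (cw cs).Sep r z y})
    (t := {r | (cw cs).Sep r x z} ∪ {r | (cw cs).Sep r z y})
    (Set.inter_subset_left.trans Set.subset_union_left) (hAf.union hBf)
  rw [← hC, hCc] at h2
  rw [hAc, hBc] at h1
  have hfin : ({r | (cw cs).Sep r x z} ∩ {r | (cw cs).Sep r z y}).Finite := hAf.inter_of_left _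
  constructor
  · intro h v hv
    have h3 : ({r | (cw cs).Sep r x z} ∩ {r | (cw cs).Sep r z y}).ncard = 0 := by omega
    rw [Set.ncard_eq_zero hfin] at h3
    have h4 : v ∈ ({r | (cw cs).Sep r x z} ∩ {r | (cw cs).Sep r z y}) := hv
    rw [h3] at h4
    exact h4
  · intro h
    have h3 : ({r | (cw cs).Sep r x z} ∩ {r | (cw cs).Sep r z y}) = ∅ := by
      ext v
      constructor
      · intro hv
        exact absurd hv (h v)
      · intro hv
        exact absurd hv (Set.notMem_empty v)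
    rw [h3, Set.ncard_empty] at h1 h2
    omega

theorem A23 (hA16 : A16_stmt) : A23_stmt := by
  intro B W _ M cs x y z h v b hz
  have h1 := (hA16 cs x y z).mp h v
  simp only [WS.hs, WS.Sep, Set.mem_setOf_eq] at h1 hz ⊢
  tauto

end Pool.Agent.helper19.DC
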