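import Pool.Agent.helper53.DC.SpecI

set_option autoImplicit false

namespace Pool.Agent.helper19.DC

open Pool.Agent.helper53.DC

theorem I6_mono {T G : ℕ} {u : ℕ → ℕ} (hu : ∀ s < T, u s < u (s + 1) ∧ u (s + 1) ≤ u s + G)
    (s d : ℕ) (h : s + d ≤ T) : u s ≤ u (s + d) ∧ u (s + d) ≤ u s + d * G := by
  induction d with
  | zero => simp
  | succ d ih =>
    have h1 := ih (by omega)
    have h2 := hu (s + d) (by omega)
    rw [← Nat.add_assoc, Nat.add_mul]
    omega

theorem I6_Hy (h1 : I1_stmt) {Z : Type} [Fintype Z] (n : ℕ → LL Z) (N : ℕ)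
    (hn : ∀ i < N, lf (n i) (n i) = 1) : ∀ k ≤ N, ∀ y ∈ Hy Z, kap n k y ∈ Hy Z := by
  intro k
  induction k with
  | zero => intro _ y hy; exact hy
  | succ k ih =>
    intro hk y hy
    exact ih (by omega) _ ((h1 (Z := Z)).2.2.2 (n k) (hn k (by omega)) y hy)

theorem I6 (h1 : I1_stmt) (h2 : I2_stmt) (h3 : I3_stmt) (h4 : I4_stmt) (h5 : I5_stmt) :
    I6_stmt := by
  intro Z _ n a μ N G T k0 u ha hμ hk0 hn hclose hu hu0 huT hN hneg
  have hn1 : ∀ i < N, lf (n i) (n i) = 1 := fun i hi => (hn i hi).1
  have hHy := I6_Hy h1 n N hn1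
  obtain ⟨h4a, h4b⟩ := h4 n a ha N hn
  have hyHy : kap n N (x0 : LL Z) ∈ Hy Z := hHy N le_rfl _ x0_mem_Hy
  refine ⟨hyHy, ?_⟩
  obtain ⟨K, hK⟩ : ∃ K, K = k0 + 1 := ⟨_, rfl⟩
  obtain ⟨Q, hQ⟩ : ∃ Q, Q = T / (k0 + 1) := ⟨_, rfl⟩
  have hQT : K * Q ≤ T := by rw [hK, hQ]; exact Nat.mul_div_le T (k0 + 1)
  have hQT2 : T < K * Q + K := by
    rw [hK, hQ]
    exact Nat.lt_mul_div_succ T (Nat.succ_pos k0)
  have huN : ∀ s ≤ T, u s < N := by
    intro s hs
    have := (I6_mono hu s (T - s) (by omega)).1
    rw [show s + (T - s) = T by omega] at this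
    omega
  -- closeness
  have hcl : ∀ s s', s ≤ s' → s' ≤ T → s' ≤ s + K → u s' ≤ u s + K * G := by
    intro s s' hss hsT hsK
    have h := (I6_mono hu s (s' - s) (by omega)).2
    rw [show s + (s' - s) = s' by omega] at h
    have h' : (s' - s) * G ≤ K * G := Nat.mul_le_mul_right G (by omega)
    omega
  have hclose' : ∀ p q, p < q → q < N → q ≤ p + K * G → lf (n p) (n q) ≤ 0 := by
    intro p q hpq hq hd
    apply hclose p q hpq hq
    rw [← hK]
    omega
  have hνν : ∀ s ≤ T, lf (kap n (u s) (n (u s))) (kap n (u s) (n (u s))) = 1 := by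
    intro s hs
    rw [lf_kap (fun i hi => hn1 i (by have := huN s hs; omega))]
    exact hn1 _ (huN s hs)
  have key : ∀ j ≤ Q, a * 2 ^ j ≤
      -lf (kap n (u (K * (Q - j))) (n (u (K * (Q - j))))) (kap n N x0) := by
    intro j
    induction j with
    | zero =>
      intro _
      rw [pow_zero, mul_one, Nat.sub_zero]
      have := h4a (u (K * Q)) N (huN _ hQT) le_rfl (by
        intro p q hp hpq hq
        apply hclose' p q hpq hq
        have e1 := (I6_mono hu (K * Q) (T - K * Q) (by omega)).2
        rw [show K * Q + (T - K * Q) = T by omega] at e1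
        have e2 : (T - K * Q) * G ≤ k0 * G := Nat.mul_le_mul_right G (by omega)
        have e3 : K * G = k0 * G + G := by rw [hK, Nat.add_mul, Nat.one_mul]
        omega)
      linarith
    | succ j ih =>
      intro hj
      have ih' := ih (by omega)
      have hs : K * (Q - (j + 1)) + K = K * (Q - j) := by
        rw [show Q - j = (Q - (j + 1)) + 1 by omega, Nat.mul_add, Nat.mul_one]
      have hsT : K * (Q - j) ≤ T := le_trans (Nat.mul_le_mul_left K (Nat.sub_le Q j)) hQT
      obtain ⟨s, hsdef⟩ : ∃ s, s = K * (Q - (j + 1)) := ⟨_, rfl⟩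
      rw [← hsdef] at hs ⊢
      rw [← hs] at ih' hsT
      have hprod : 2 ≤ lf (kap n (u s) (n (u s))) (kap n (u (s + K)) (n (u (s + K)))) := by
        have := h5 n N hn1 k0 (fun p => u (s + p)) μ hμ (by
          intro p hp
          have := (hu (s + p) (by omega)).1
          exact this) (by
          have := huN (s + (k0 + 1)) (by omega)
          exact this) (by
          intro p q hp hpq hq
          have e1 := hcl s (s + (k0 + 1)) (by omega) (by omega) (by omega)
          have e2 := huN (s + (k0 + 1)) (by omega)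
          simp only [Nat.add_zero] at hp
          exact hclose' p q hpq (by omega) (by omega)) (by
          intro p q hpq hq
          exact hneg (s + p) (s + q) (by omega) (by omega) (by omega))
        simp only [Nat.add_zero] at this
        rw [← hK] at this
        linarith
      have hz1 := h4a (u s) (u (s + K)) (by
        have e1 := (hu s (by omega)).1
        have e2 := (I6_mono hu (s + 1) (K - 1) (by omega)).1
        rw [show s + 1 + (K - 1) = s + K by omega] at e2
        omega) (huN _ hsT).le (by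
        intro p q hp hpq hq
        have e1 := hcl s (s + K) (by omega) (by omega) (by omega)
        have e2 := huN (s + K) hsT
        exact hclose' p q hpq (by omega) (by omega))
      have hz2 := h4b (u (s + K)) (u (s + K)) le_rfl (huN _ hsT) (by
        intro p q hp hpq hq
        omega)
      have hlt : lf (kap n (u (s + K)) (n (u (s + K)))) (kap n N x0) ≤ 0 := by
        have : 0 < a * 2 ^ j := by positivity
        linarith
      have := h2 (kap n (u s) (n (u s))) (kap n (u (s + K)) (n (u (s + K)))) (kap n N x0)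
        (kap n (u (s + K)) x0) (hνν s (by omega)) (hνν (s + K) hsT) hprod hyHy
        (hHy _ (huN _ hsT).le _ x0_mem_Hy) (by linarith) (by linarith) hlt
      rw [pow_succ]
      linarith
  have key0 := key Q le_rfl
  rw [Nat.sub_self, Nat.mul_zero] at key0
  have hx0 := h4b (u 0) 0 (Nat.zero_le _) (huN 0 (Nat.zero_le _)) (by
    intro p q hp hpq hq
    apply hclose' p q hpq (by have := huN 0 (Nat.zero_le _); omega)
    have : G ≤ K * G := Nat.le_mul_of_pos_left G (by omega)
    omega)
  have hx0' : a ≤ lf (kap n (u 0) (n (u 0))) (x0 : LL Z) := hx0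
  have hpos : 0 < a * 2 ^ Q := by positivity
  have h6 := h3 (kap n (u 0) (n (u 0))) (kap n N x0) (hνν 0 (Nat.zero_le _)) (by linarith) hyHy
    (by linarith)
  rw [← hQ]
  nlinarith

end Pool.Agent.helper19.DC
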