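import Pool.Agent.helper53.DC.SpecM

set_option autoImplicit false

namespace Pool.Agent.helper19.DC

open Pool.Agent.helper53.DC

section
variable {B W : Type} [Group W] {M : CoxeterMatrix B}

theorem L4_Car_nonempty (cs : CoxeterSystem M W) (r : Wall cs) : ∃ x, x ∈ Car cs r := by
  obtain ⟨y, i, hy⟩ := r.2
  exact ⟨y, i, by rw [hy]; group⟩

/-- from `r x = x s_i` we get `r = wall x i` -/
theorem L4_wall (cs : CoxeterSystem M W) (r : Wall cs) (x : W) (i : B)
    (h : r.1 * x = x * cs.simple i) : r = wall cs x i := by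
  apply Subtype.ext
  rw [wall_val, ← h]
  group

theorem L4_step {cs : CoxeterSystem M W} {H : Subgroup W} {c : W → RA (labG cs H)}
    (hc : IsDev cs H c) (r : Wall cs) (x : W) (i : B) (h : r.1 * x = x * cs.simple i) :
    c (x * cs.simple i) = c x * (ra (labG cs H)).simple (lab cs H r) := by
  rw [hc.mul, ← L4_wall cs r x i h]

/-- the wall `wall (c x) (lab r)` does not change when crossing a wall whose label commutes -/
theorem L4_slide {cs : CoxeterSystem M W} {H : Subgroup W} {c : W → RA (labG cs H)}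
    (hc : IsDev cs H c) (r v : Wall cs) (x : W) (i : B) (h : v.1 * x = x * cs.simple i)
    (hcomm : (ra (labG cs H)).simple (lab cs H v) * (ra (labG cs H)).simple (lab cs H r) =
      (ra (labG cs H)).simple (lab cs H r) * (ra (labG cs H)).simple (lab cs H v)) :
    wall (ra (labG cs H)) (c (x * cs.simple i)) (lab cs H r) =
      wall (ra (labG cs H)) (c x) (lab cs H r) := by
  apply Subtype.ext
  rw [wall_val, wall_val, L4_step hc v x i h]
  have h1 : c x * (ra (labG cs H)).simple (lab cs H v) * (ra (labG cs H)).simple (lab cs H r) *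
      (c x * (ra (labG cs H)).simple (lab cs H v))⁻¹ =
      c x * ((ra (labG cs H)).simple (lab cs H v) * (ra (labG cs H)).simple (lab cs H r)) *
      ((ra (labG cs H)).simple (lab cs H v))⁻¹ * (c x)⁻¹ := by group
  rw [h1, hcomm]
  group

/-- walls of a gallery -/
theorem L4_gal {cs : CoxeterSystem M W} {n : ℕ} {X : ℕ → W} {w : ℕ → Wall cs}
    (hG : Gal cs n X w) (k : ℕ) (hk : k < n) :
    ∃ i, X (k + 1) = X k * cs.simple i ∧ (w k).1 * X k = X k * cs.simple i := by
  obtain ⟨i, hi⟩ := hG.adj k hk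
  exact ⟨i, hi, by rw [← hi, hG.step k hk]⟩

theorem L4_same (hA12 : A12_stmt) (hA14 : A14_stmt) (hA15 : A15_stmt) (hM2 : M2_stmt)
    {cs : CoxeterSystem M W} {H : Subgroup W} {m : ℕ} {c : W → RA (labG cs H)}
    (hd : Deep cs H m) (hc : IsDev cs H c) (r : Wall cs) (x x' : W) (hx : x ∈ Car cs r)
    (hx' : x' ∈ Car cs r) (hs : ¬ (cw cs).Sep r x x') :
    wall (ra (labG cs H)) (c x) (lab cs H r) = wall (ra (labG cs H)) (c x') (lab cs H r) := by
  have : Nonempty (Wall cs) := ⟨r⟩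
  obtain ⟨X, w, hG, hX0, hXn⟩ := hA14 cs x x'
  obtain ⟨_, hsep, _, _, _⟩ := hA15 cs _ X w hG
  have key : ∀ k ≤ dd cs x x', wall (ra (labG cs H)) (c (X k)) (lab cs H r) =
      wall (ra (labG cs H)) (c x) (lab cs H r) := by
    intro k
    induction k with
    | zero => intro _; rw [hX0]
    | succ k ih =>
      intro hk
      obtain ⟨i, hi1, hi2⟩ := L4_gal hG k (by omega)
      have hcr : (cw cs).Cross (w k) r := by
        apply hA12 cs r (w k) x x' hx hx' hs
        have := (hsep k 0 _ (by omega) (Nat.zero_le _) le_rfl).mpr ⟨Nat.zero_le _, by omega⟩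
        rw [hX0, hXn] at this
        exact this
      have hadj : (labG cs H).Adj (lab cs H (w k)) (lab cs H r) :=
        ⟨hd.a1 _ _ hcr, w k, r, rfl, rfl, hcr⟩
      rw [hi1, L4_slide hc r (w k) (X k) i hi2 ((hM2 (labG cs H)).1 _ _ hadj)]
      exact ih (by omega)
  rw [← key _ le_rfl, hXn]

theorem L4_indep (hA3 : A3_stmt) (hA12 : A12_stmt) (hA14 : A14_stmt) (hA15 : A15_stmt)
    (hM2 : M2_stmt)
    {cs : CoxeterSystem M W} {H : Subgroup W} {m : ℕ} {c : W → RA (labG cs H)}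
    (hd : Deep cs H m) (hc : IsDev cs H c) (r : Wall cs) (x x' : W) (hx : x ∈ Car cs r)
    (hx' : x' ∈ Car cs r) :
    wall (ra (labG cs H)) (c x) (lab cs H r) = wall (ra (labG cs H)) (c x') (lab cs H r) := by
  by_cases hs : (cw cs).Sep r x x'
  · obtain ⟨i, hi⟩ := hx
    have h1 : (cw cs).Sep r x (x * cs.simple i) := by
      rw [hA3 cs r x i]
      exact L4_wall cs r x i hi
    have h2 : ¬ (cw cs).Sep r (x * cs.simple i) x' := by
      simp only [WS.Sep] at hs h1 ⊢
      tauto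
    have h3 : x * cs.simple i ∈ Car cs r := by
      refine ⟨i, ?_⟩
      rw [← mul_assoc, hi]
    rw [← L4_same hA12 hA14 hA15 hM2 hd hc r _ x' h3 hx' h2, L4_slide hc r r x i hi rfl]
  · exact L4_same hA12 hA14 hA15 hM2 hd hc r x x' hx hx' hs

/-- two points separated by two given walls -/
theorem L4_two (hA6 : A6_stmt) (cs : CoxeterSystem M W) (r r' : Wall cs) :
    ∃ x y, (cw cs).Sep r x y ∧ (cw cs).Sep r' x y := by
  by_contra hcon
  push Not at hcon
  have hg := hA6 cs
  obtain ⟨a, ha⟩ := hg.ne r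
  obtain ⟨b, hb⟩ := hg.nec r
  obtain ⟨a', ha'⟩ := hg.ne r'
  obtain ⟨b', hb'⟩ := hg.nec r'
  rw [Set.mem_compl_iff] at hb hb'
  have hcon' : ∀ x y, x ∈ (cw cs).H r → y ∉ (cw cs).H r →
      (x ∈ (cw cs).H r' ↔ y ∈ (cw cs).H r') := by
    intro x y hx hy
    by_contra h
    exact hcon x y (fun h' => hy (h'.mp hx)) h
  have hz : ∀ z, z ∈ (cw cs).H r' ↔ a ∈ (cw cs).H r' := by
    intro z
    by_cases hzr : z ∈ (cw cs).H r
    · rw [hcon' z b hzr hb, hcon' a b ha hb]
    · rw [← hcon' a z ha hzr]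
  exact hb' ((hz b').mpr ((hz a').mp ha'))

end

theorem L4 (hL2 : L2_stmt) (hL3 : L3_stmt) (hA3 : A3_stmt) (hA6 : A6_stmt) (hA12 : A12_stmt)
    (hA14 : A14_stmt) (hA15 : A15_stmt) (hM2 : M2_stmt) : L4_stmt := by
  intro B W _ M cs H m c hd hc
  let w : Wall cs → Wall (ra (labG cs H)) := fun r =>
    wall (ra (labG cs H)) (c (L4_Car_nonempty cs r).choose) (lab cs H r)
  have hcar : ∀ r, ∀ x ∈ Car cs r, w r = wall (ra (labG cs H)) (c x) (lab cs H r) := by
    intro r x hx
    exact L4_indep hA3 hA12 hA14 hA15 hM2 hd hc r _ x (L4_Car_nonempty cs r).choose_spec hx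
  -- image galleries
  have himg : ∀ (n : ℕ) (X : ℕ → W) (v : ℕ → Wall cs), Gal cs n X v →
      Gal (ra (labG cs H)) n (fun k => c (X k)) (fun k => w (v k)) := by
    intro n X v hG
    refine ⟨?_, ?_, ?_⟩
    · intro k hk
      obtain ⟨i, hi1, hi2⟩ := L4_gal hG k hk
      have e : (w (v k)).1 = c (X k) * (ra (labG cs H)).simple (lab cs H (v k)) * (c (X k))⁻¹ := by
        rw [hcar (v k) (X k) ⟨i, hi2⟩]
        rfl
      show c (X (k + 1)) = (w (v k)).1 * c (X k)
      rw [e, hi1, L4_step hc (v k) (X k) i hi2]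
      group
    · intro k hk
      obtain ⟨i, hi1, hi2⟩ := L4_gal hG k hk
      refine ⟨lab cs H (v k), ?_⟩
      show c (X (k + 1)) = c (X k) * _
      rw [hi1, L4_step hc (v k) (X k) i hi2]
    · show dd (ra (labG cs H)) (c (X 0)) (c (X n)) = n
      rw [hL3 cs H m c hd hc]
      exact hG.geo
  have hinj : Function.Injective w := by
    intro r r' hrr
    by_contra hne
    obtain ⟨x, y, h1, h2⟩ := L4_two hA6 cs r r'
    have : Nonempty (Wall cs) := ⟨r⟩
    obtain ⟨X, v, hG, hX0, hXn⟩ := hA14 cs x y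
    obtain ⟨_, _, _, hall, _⟩ := hA15 cs _ X v hG
    obtain ⟨k, hk, hrk⟩ := hall r (by rw [hX0, hXn]; exact h1)
    obtain ⟨l, hl, hrl⟩ := hall r' (by rw [hX0, hXn]; exact h2)
    obtain ⟨_, _, hdist, _, _⟩ := hA15 _ _ _ _ (himg _ X v hG)
    have h3 := hdist k l hk hl (by
      show w (v k) = w (v l)
      rw [← hrk, ← hrl]; exact hrr)
    apply hne
    rw [hrk, hrl, h3]
  have hall' : ∀ t x y, (cw (ra (labG cs H))).Sep t (c x) (c y) →
      ∃ r, t = w r ∧ (cw cs).Sep r x y := by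
    intro t x y ht
    by_cases hne : Nonempty (Wall cs)
    swap
    · exfalso
      have hxy : c x = c y := by
        have h0 : dd (ra (labG cs H)) (c x) (c y) = 0 := by
          rw [hL3 cs H m c hd hc]
          by_contra h0
          have h1 : 1 ≤ dd cs x y := by omega
          obtain ⟨z, hz, _⟩ := exists_geo cs x y 1 h1
          obtain ⟨i, _⟩ := (dd_eq_one cs).mp hz
          exact hne ⟨wall cs x i⟩
        exact (dd_eq_zero _).mp h0
      rw [hxy] at ht
      exact ht Iff.rfl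
    obtain ⟨X, v, hG, hX0, hXn⟩ := hA14 cs x y
    obtain ⟨_, hsep, _, _, _⟩ := hA15 cs _ X v hG
    obtain ⟨_, _, _, hall, _⟩ := hA15 _ _ _ _ (himg _ X v hG)
    obtain ⟨k, hk, htk⟩ := hall t (by
      show (cw (ra (labG cs H))).Sep t (c (X 0)) (c (X (dd cs x y)))
      rw [hX0, hXn]; exact ht)
    refine ⟨v k, htk, ?_⟩
    have := (hsep k 0 _ hk (Nat.zero_le _) le_rfl).mpr ⟨Nat.zero_le _, hk⟩
    rw [hX0, hXn] at this
    exact this
  refine ⟨w, hcar, ?_, hinj, ?_, ?_⟩
  · intro r x y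
    constructor
    · intro h
      obtain ⟨r', hr', hs⟩ := hall' _ x y h
      rw [hinj hr']
      exact hs
    · intro h
      have : Nonempty (Wall cs) := ⟨r⟩
      obtain ⟨X, v, hG, hX0, hXn⟩ := hA14 cs x y
      obtain ⟨_, _, _, hall, _⟩ := hA15 cs _ X v hG
      obtain ⟨k, hk, hrk⟩ := hall r (by rw [hX0, hXn]; exact h)
      obtain ⟨_, hsep, _, _, _⟩ := hA15 _ _ _ _ (himg _ X v hG)
      have := (hsep k 0 _ hk (Nat.zero_le _) le_rfl).mpr ⟨Nat.zero_le _, hk⟩
      have this' : (cw (ra (labG cs H))).Sep (w (v k)) (c (X 0)) (c (X (dd cs x y))) := this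
      rw [hX0, hXn, ← hrk] at this'
      exact this'
  · intro t x y ht
    obtain ⟨r, hr, _⟩ := hall' t x y ht
    exact ⟨r, hr⟩
  · intro h hh r
    obtain ⟨x, i, hi⟩ := L4_Car_nonempty cs r
    have h1 : h * x ∈ Car cs (h • r) := by
      refine ⟨i, ?_⟩
      rw [smul_wall_val]
      have e : h * r.1 * h⁻¹ * (h * x) = h * (r.1 * x) := by group
      rw [e, hi, mul_assoc]
    have h2 : lab cs H (h • r) = lab cs H r := ((lab_eq cs).mpr ⟨h, hh, rfl⟩).symm
    rw [hcar _ _ h1, hcar r x ⟨i, hi⟩, h2, hL2 cs H c hc h hh x]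
    apply Subtype.ext
    rw [smul_wall_val, wall_val, wall_val]
    group

end Pool.Agent.helper19.DC
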