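import Pool.Agent.helper53.DC.SpecV

set_option autoImplicit false

namespace Pool.Agent.helper19.DC

open Pool.Agent.helper53.DC

theorem V3 : V3_stmt := by
  intro W _ H K hKH hsep A _ _ F hF
  classical
  let φ : K →* Equiv.Perm A := MulAction.toPermHom K A
  let K0 : Subgroup W := φ.ker.map K.subtype
  have hK0K : K0 ≤ K := by
    rintro _ ⟨k, _, rfl⟩
    exact k.2
  have hK0mem : ∀ k : K, (k : W) ∈ K0 ↔ φ k = 1 := by
    intro k
    constructor
    · rintro ⟨k', hk', he⟩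
      have : k' = k := Subtype.ext he
      rw [← this]
      exact hk'
    · intro h
      exact ⟨k, h, rfl⟩
  have hrel : K0.relIndex K ≠ 0 := by
    have h1 : K0.subgroupOf K = φ.ker := by
      ext k
      rw [Subgroup.mem_subgroupOf, hK0mem, MonoidHom.mem_ker]
    rw [Subgroup.relIndex, h1]
    exact Subgroup.FiniteIndex.index_ne_zero
  -- representatives
  let s : Equiv.Perm A → K := fun σ => if h : ∃ k, φ k = σ then h.choose else 1
  have hs : ∀ k, φ (s (φ k)) = φ k := by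
    intro k
    have h : ∃ k', φ k' = φ k := ⟨k, rfl⟩
    simp only [s]
    rw [dif_pos h]
    exact h.choose_spec
  have hk0 : ∀ k : K, (k : W) * ((s (φ k) : K) : W)⁻¹ ∈ K0 := by
    intro k
    have h := (hK0mem (k * (s (φ k))⁻¹)).mpr (by rw [map_mul, map_inv, hs, mul_inv_cancel])
    simpa using h
  let F1 : Set W := Set.range (fun σ => ((s σ : K) : W)) ∪
    Set.image2 (fun f σ => f * ((s σ : K) : W)⁻¹) F Set.univ
  have hF1 : F1.Finite := (Set.finite_range _).union (hF.image2 _ Set.finite_univ)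
  obtain ⟨H0, hH0fin, hK0H0, hH0H, hH0⟩ := hsep K0 hK0K hrel F1 hF1
  let H1 : Subgroup W := ⨅ σ : Equiv.Perm A,
    H0.comap (MulAut.conj ((s σ : K) : W)).toMonoidHom
  have hH1fin : H1.FiniteIndex := by
    refine Subgroup.finiteIndex_iInf fun σ => ⟨?_⟩
    rw [Subgroup.index_comap_of_surjective _ (MulAut.conj ((s σ : K) : W)).surjective]
    exact hH0fin.index_ne_zero
  have hH1 : ∀ x, x ∈ H1 ↔ ∀ k ∈ K, k * x * k⁻¹ ∈ H0 := by
    intro x
    constructor
    · intro hx k hk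
      have h1 := (Subgroup.mem_iInf.mp hx) (φ ⟨k, hk⟩)
      have h2 : (s (φ ⟨k, hk⟩) : W) * x * ((s (φ ⟨k, hk⟩) : K) : W)⁻¹ ∈ H0 := h1
      have h3 := hK0H0 (hk0 ⟨k, hk⟩)
      have h4 := H0.mul_mem (H0.mul_mem h3 h2) (H0.inv_mem h3)
      have e : k * ((s (φ ⟨k, hk⟩) : K) : W)⁻¹ *
          ((s (φ ⟨k, hk⟩) : W) * x * ((s (φ ⟨k, hk⟩) : K) : W)⁻¹) *
          (k * ((s (φ ⟨k, hk⟩) : K) : W)⁻¹)⁻¹ = k * x * k⁻¹ := by group
      rw [← e]
      exact h4
    · intro hx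
      refine Subgroup.mem_iInf.mpr fun σ => ?_
      exact hx _ (s σ).2
  have hconj : ∀ x ∈ H1, ∀ k ∈ K, k * x * k⁻¹ ∈ H1 := by
    intro x hx k hk
    rw [hH1] at hx ⊢
    intro l hl
    have := hx (l * k) (K.mul_mem hl hk)
    have e : l * (k * x * k⁻¹) * l⁻¹ = l * k * x * (l * k)⁻¹ := by group
    rw [e]
    exact this
  have hH10 : H1 ≤ H0 := by
    intro x hx
    have := (hH1 x).mp hx 1 K.one_mem
    simpa using this
  have hcap : ∀ k : K, (k : W) ∈ H0 → φ k = 1 := by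
    intro k hk
    have h1 : ((s (φ k) : K) : W) ∈ H0 := by
      have h2 := H0.mul_mem (H0.inv_mem (hK0H0 (hk0 k))) hk
      have e : ((k : W) * ((s (φ k) : K) : W)⁻¹)⁻¹ * k = ((s (φ k) : K) : W) := by group
      rw [e] at h2
      exact h2
    have h3 := hH0 _ (Or.inl ⟨φ k, rfl⟩) h1
    rw [hK0mem, hs] at h3
    exact h3
  have hmul : ∀ x y k l : W, k ∈ K → x * k⁻¹ ∈ H1 → y * l⁻¹ ∈ H1 →
      x * y * (k * l)⁻¹ ∈ H1 := by
    intro x y k l hk hx hy
    have h1 := H1.mul_mem hx (hconj _ hy k hk)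
    have e : x * k⁻¹ * (k * (y * l⁻¹) * k⁻¹) = x * y * (k * l)⁻¹ := by group
    rw [← e]
    exact h1
  let H' : Subgroup W :=
    { carrier := {x | ∃ k : K, x * (k : W)⁻¹ ∈ H1}
      one_mem' := ⟨1, by simp [H1.one_mem]⟩
      mul_mem' := by
        rintro x y ⟨k, hk⟩ ⟨l, hl⟩
        exact ⟨k * l, hmul x y k l k.2 hk hl⟩
      inv_mem' := by
        rintro x ⟨k, hk⟩
        refine ⟨k⁻¹, ?_⟩
        have h1 := hconj _ (H1.inv_mem hk) (k : W)⁻¹ (K.inv_mem k.2)
        have e : (k : W)⁻¹ * (x * (k : W)⁻¹)⁻¹ * ((k : W)⁻¹)⁻¹ = x⁻¹ * (((k⁻¹ : K) : W))⁻¹ := by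
          push_cast
          group
        rw [← e]
        exact h1 }
  have hH' : ∀ x, x ∈ H' ↔ ∃ k : K, x * (k : W)⁻¹ ∈ H1 := fun x => Iff.rfl
  have hKH' : K ≤ H' := by
    intro x hx
    exact ⟨⟨x, hx⟩, by simp [H1.one_mem]⟩
  have hH1H' : H1 ≤ H' := by
    intro x hx
    exact ⟨1, by simpa using hx⟩
  have hwell : ∀ (x : W) (k l : K), x * (k : W)⁻¹ ∈ H1 → x * (l : W)⁻¹ ∈ H1 → φ k = φ l := by
    intro x k l hk hl
    have h1 := H1.mul_mem (H1.inv_mem hk) hl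
    have e : (x * (k : W)⁻¹)⁻¹ * (x * (l : W)⁻¹) = ((k * l⁻¹ : K) : W) := by
      push_cast
      group
    rw [e] at h1
    have h2 := hcap _ (hH10 h1)
    rw [map_mul, map_inv, mul_inv_eq_one] at h2
    exact h2
  let κ : H' → K := fun x => ((hH' x.1).mp x.2).choose
  have hκ : ∀ x : H', (x : W) * ((κ x : K) : W)⁻¹ ∈ H1 := fun x =>
    ((hH' x.1).mp x.2).choose_spec
  let act : MulAction H' A :=
    { smul := fun x α => κ x • α
      one_smul := by
        intro α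
        have h := hwell 1 (κ 1) 1 (hκ 1) (by simp [H1.one_mem])
        have h2 := Equiv.congr_fun h α
        show κ 1 • α = α
        have h3 : κ 1 • α = φ (κ 1) α := rfl
        rw [h3, h2]
        exact one_smul K α
      mul_smul := by
        intro x y α
        have h := hwell (x * y) (κ (x * y)) (κ x * κ y) (hκ (x * y))
          (hmul x y (κ x) (κ y) (κ x).2 (hκ x) (hκ y))
        have h2 := Equiv.congr_fun h α
        show κ (x * y) • α = κ x • κ y • α
        rw [← mul_smul]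
        exact h2 }
  refine ⟨H', hKH', act, ?_, ?_, ?_, ?_⟩
  · exact Subgroup.finiteIndex_of_le hH1H'
  · rintro x ⟨k, hk⟩
    have h1 := H.mul_mem (hH0H (hH10 hk)) (hKH k.2)
    have e : x * (k : W)⁻¹ * k = x := by group
    rw [e] at h1
    exact h1
  · intro k α
    have h := hwell k.1 (κ ⟨k.1, hKH' k.2⟩) k (hκ ⟨k.1, hKH' k.2⟩) (by simp [H1.one_mem])
    exact Equiv.congr_fun h α
  · rintro f hf ⟨k, hk⟩
    have h1 : f * ((s (φ k) : K) : W)⁻¹ ∈ H0 := by
      have h2 := H0.mul_mem (hH10 hk) (hK0H0 (hk0 k))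
      have e : f * (k : W)⁻¹ * ((k : W) * ((s (φ k) : K) : W)⁻¹) =
          f * ((s (φ k) : K) : W)⁻¹ := by group
      rw [e] at h2
      exact h2
    have h3 := hK0K (hH0 _ (Or.inr ⟨f, hf, φ k, trivial, rfl⟩) h1)
    have h4 := K.mul_mem h3 (s (φ k)).2
    have e : f * ((s (φ k) : K) : W)⁻¹ * ((s (φ k) : K) : W) = f := by group
    rw [← e]
    exact h4

end Pool.Agent.helper19.DC
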