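import Pool.Agent.helper53.DC.SpecV

set_option autoImplicit false

namespace Pool.Agent.helper19.DC

open Pool.Agent.helper53.DC

theorem V5 : V5_stmt := by
  intro W V _ _ H' K T A _ f hKH' hT hf
  classical
  -- `F u α = f (h⁻¹ u) (h⁻¹ α)` for `h ∈ H'` with `h⁻¹ u ∈ T`
  let P : V → H' → Prop := fun u h => ((h⁻¹ : H') : W) • u ∈ T
  let F : V → A → ℝ := fun u α => if h : ∃ x : H', P u x then
    f ((((h.choose)⁻¹ : H') : W) • u) ((h.choose)⁻¹ • α) else 0
  have hF : ∀ (u : V) (x : H') (α : A), P u x → F u α = f (((x⁻¹ : H') : W) • u) (x⁻¹ • α) := by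
    intro u x α hx
    have hex : ∃ x : H', P u x := ⟨x, hx⟩
    have hy : P u hex.choose := hex.choose_spec
    have e1 : F u α = f ((((hex.choose)⁻¹ : H') : W) • u) ((hex.choose)⁻¹ • α) := by
      simp only [F]
      rw [dif_pos hex]
    rw [e1]
    -- `y⁻¹ u = (y⁻¹ x) (x⁻¹ u)`
    have e2 : (((hex.choose)⁻¹ : H') : W) • u =
        (((hex.choose)⁻¹ * x : H') : W) • (((x⁻¹ : H') : W) • u) := by
      rw [smul_smul]
      congr 1
      push_cast
      group
    have e3 : (hex.choose)⁻¹ • α = ((hex.choose)⁻¹ * x) • (x⁻¹ • α) := by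
      rw [smul_smul]
      congr 1
      group
    have hk : (((hex.choose)⁻¹ * x : H') : W) ∈ K := by
      rw [← hT _ ((hex.choose)⁻¹ * x : H').2 _ hx]
      rw [← e2]
      exact hy
    rw [e2, e3]
    exact hf _ hk _ hx _
  have hF0 : ∀ (u : V), (∀ x : H', ¬ P u x) → F u = 0 := by
    intro u hu
    funext α
    simp only [F]
    rw [dif_neg (by
      rintro ⟨x, hx⟩
      exact hu x hx)]
    rfl
  refine ⟨F, ?_, ?_, ?_⟩
  · intro h u α
    by_cases hex : ∃ x : H', P u x
    · obtain ⟨x, hx⟩ := hex
      have hx' : P ((h : W) • u) (h * x) := by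
        show (((h * x)⁻¹ : H') : W) • ((h : W) • u) ∈ T
        have e : (((h * x)⁻¹ : H') : W) • ((h : W) • u) = ((x⁻¹ : H') : W) • u := by
          rw [smul_smul]
          congr 1
          push_cast
          group
        rw [e]
        exact hx
      rw [hF _ _ _ hx', hF _ _ _ hx]
      congr 1
      · rw [smul_smul]
        congr 1
        push_cast
        group
      · rw [smul_smul]
        congr 1
        group
    · push Not at hex
      have h2 : ∀ x : H', ¬ P ((h : W) • u) x := by
        intro x hx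
        apply hex (h⁻¹ * x)
        show (((h⁻¹ * x)⁻¹ : H') : W) • u ∈ T
        have e : (((h⁻¹ * x)⁻¹ : H') : W) • u = ((x⁻¹ : H') : W) • ((h : W) • u) := by
          rw [smul_smul]
          congr 1
          push_cast
          group
        rw [e]
        exact hx
      rw [hF0 _ hex, hF0 _ h2]
      rfl
  · intro u hu
    funext α
    have h1 : P u 1 := by
      show ((1⁻¹ : H') : W) • u ∈ T
      simpa using hu
    rw [hF u 1 α h1]
    simp
  · intro u hu
    apply hF0
    intro x hx
    exact hu _ (x⁻¹ : H').2 hx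

end Pool.Agent.helper19.DC
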